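import Pool.Agent.N646.SF.Stm2
import Pool.Agent.N646.BX.Pri

/-! Project SF: the almost cliques for the primes at one scale. -/

set_option autoImplicit false

namespace Pool.Agent.N646.SF

open Finset Filter Topology
open Pool.Agent.N646.AC
open Pool.Agent.N646.BX
open Pool.Agent.Y827.RO
open Pool.Agent.Y827.HD
open Pool.Agent.Y827.GS

/-- all patterns of primes and composites occur at least `x / (log x) ^ C` times up to `x` for the
shifts `0, h_1, …, h_k` -/
def GoodAt (k C x : ℕ) (h : Fin k → ℤ) : Prop :=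
  ∀ J : Finset (Fin (k + 1)), (x : ℝ) / (Real.log x) ^ C ≤
    (((Icc 1 x).filter (fun n : ℕ => ∀ i, ((n : ℤ) + (Fin.cons 0 h : Fin (k + 1) → ℤ) i).toNat.Prime ↔
      i ∈ J)).card : ℝ)

theorem half_growth (C : ℕ) : ∀ᶠ x : ℕ in atTop,
    (x : ℝ) / (Real.log x) ^ (C + 1) ≤ ((x / 2 : ℕ) : ℝ) / (Real.log ((x / 2 : ℕ) : ℝ)) ^ C := by
  have hlog : Tendsto (fun N : ℕ => Real.log (N : ℝ)) atTop atTop :=
    Real.tendsto_log_atTop.comp tendsto_natCast_atTop_atTop
  filter_upwards [hlog.eventually_ge_atTop 3, eventually_ge_atTop 6] with x h1 h2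
  have hx : 3 ≤ x / 2 := by omega
  have hxR : (3 : ℝ) ≤ ((x / 2 : ℕ) : ℝ) := by exact_mod_cast hx
  have hx1 : (1 : ℝ) < ((x / 2 : ℕ) : ℝ) := by linarith
  have hl0 : 0 < Real.log ((x / 2 : ℕ) : ℝ) := Real.log_pos hx1
  have hle : ((x / 2 : ℕ) : ℝ) ≤ x := by exact_mod_cast Nat.div_le_self x 2
  have hl1 : Real.log ((x / 2 : ℕ) : ℝ) ≤ Real.log x := Real.log_le_log (by linarith) hle
  have h3 : (x : ℝ) ≤ 3 * ((x / 2 : ℕ) : ℝ) := by
    have : x ≤ 3 * (x / 2) := by omega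
    exact_mod_cast this
  have hlx : 0 < Real.log (x : ℝ) := by linarith
  calc (x : ℝ) / (Real.log x) ^ (C + 1) ≤ (3 * ((x / 2 : ℕ) : ℝ)) / (3 * (Real.log x) ^ C) := by
        apply div_le_div₀ (by positivity) h3 (by positivity)
        rw [pow_succ, mul_comm]
        exact mul_le_mul_of_nonneg_left h1 (by positivity)
    _ = ((x / 2 : ℕ) : ℝ) / (Real.log x) ^ C := by
        rw [mul_div_mul_left _ _ (by norm_num)]
    _ ≤ _ := by
        apply div_le_div_of_nonneg_left (by linarith) (by positivity)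
        exact pow_le_pow_left₀ hl0.le hl1 _

theorem goodAt_of_allP {k C x N : ℕ} {y : Fin (k + 1) → ℤ} (hy0 : 0 ≤ y 0) (hyx : N + y 0 ≤ x)
    (hgr : (x : ℝ) / (Real.log x) ^ (C + 1) ≤ (N : ℝ) / (Real.log N) ^ C)
    (h : AllP C N (fun i => ((1 : ℤ), y i))) : GoodAt k (C + 1) x (fun j => y j.succ - y 0) := by
  intro J
  refine hgr.trans ((h J).trans ?_)
  rw [Nat.cast_le]
  unfold pat
  apply card_le_card_of_injOn (fun n : ℕ => ((n : ℤ) + y 0).toNat)
  · intro n hn
    rw [mem_coe, mem_filter, mem_Icc] at hn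
    rw [mem_coe, mem_filter, mem_Icc]
    obtain ⟨⟨hn1, hn2⟩, hn3⟩ := hn
    have hpos : 1 ≤ (n : ℤ) + y 0 := by omega
    refine ⟨⟨by show 1 ≤ ((n : ℤ) + y 0).toNat; omega,
      by show ((n : ℤ) + y 0).toNat ≤ x; omega⟩, fun i => ?_⟩
    show ((((n : ℤ) + y 0).toNat : ℕ) + (Fin.cons 0 (fun j : Fin k => y j.succ - y 0) :
      Fin (k + 1) → ℤ) i : ℤ).toNat.Prime ↔ i ∈ J
    rw [Int.toNat_of_nonneg (by omega)]
    have := hn3 i
    rcases Fin.eq_zero_or_eq_succ i with h0 | ⟨j, hj⟩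
    · subst h0
      rw [Fin.cons_zero, add_zero]
      rw [one_mul] at this
      exact this
    · subst hj
      rw [Fin.cons_succ]
      rw [one_mul] at this
      convert this using 3
      ring
  · intro a ha b hb hab
    rw [mem_coe, mem_filter, mem_Icc] at ha hb
    have hab' : ((a : ℤ) + y 0).toNat = ((b : ℤ) + y 0).toNat := hab
    omega

open Classical in
/-- **almost cliques at one scale** -/
theorem clx (k : ℕ) (ε : ℝ) (hε : 0 < ε) : ∃ M n₀ C : ℕ, 1 ≤ M ∧ ∀ᶠ x : ℕ in atTop, ∀ T : ℕ,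
    n₀ ≤ T → 2 * M * T ≤ x → ∃ A ⊆ Ico 0 (T : ℤ), (5 / 18 - ε) * T ≤ (A.card : ℝ) ∧
      (((Fintype.piFinset (fun _ : Fin (k + 1) => A)).filter (fun y => Function.Injective y ∧
        ¬ GoodAt k C x (fun j => M * (y j.succ - y 0)))).card : ℝ) ≤ ε * (T : ℝ) ^ (k + 1) := by
  set e : ℝ := min (ε / 2) (1 / 18) with he
  have he0 : 0 < e := lt_min (by linarith) (by norm_num)
  have he1 : e ≤ ε / 2 := min_le_left _ _
  have he2 : e ≤ 1 / 18 := min_le_right _ _
  obtain ⟨z, n₀, C, m, hm, h⟩ := covU k e he0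
  refine ⟨z.factorial, n₀, C + 1, Nat.factorial_pos z, ?_⟩
  set M : ℕ := z.factorial with hM
  have hM1 : 1 ≤ M := Nat.factorial_pos z
  have hMZ : (0 : ℤ) < M := by exact_mod_cast hM1
  have htend : Tendsto (fun x : ℕ => x / 2) atTop atTop := by
    refine tendsto_atTop.2 fun b => ?_
    filter_upwards [eventually_ge_atTop (2 * b)] with x hx
    omega
  filter_upwards [htend.eventually (h 1), half_growth C] with x hx hgr T hT hTx
  set N : ℕ := x / 2 with hN
  have hMTN : M * T ≤ N := by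
    rw [hN, Nat.le_div_iff_mul_le (by norm_num)]
    linarith
  have hinj : Function.Injective (fun t : ℤ => ((1 : ℤ), (M : ℤ) * t)) := by
    intro a b hab
    have h1 : (M : ℤ) * a = M * b := (Prod.mk.inj hab).2
    exact mul_left_cancel₀ hMZ.ne' h1
  set V : Finset (ℤ × ℤ) := (Ico 0 (T : ℤ)).image (fun t : ℤ => ((1 : ℤ), (M : ℤ) * t)) with hV
  have hVc : V.card = T := by
    rw [hV, card_image_of_injective _ hinj, Int.card_Ico]
    omega
  have hVm : ∀ f ∈ V, f.1 = 1 ∧ 0 ≤ f.2 ∧ f.2 ≤ N := by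
    intro f hf
    obtain ⟨t, ht, rfl⟩ := mem_image.1 hf
    have ht' := mem_Ico.1 ht
    refine ⟨rfl, mul_nonneg hMZ.le ht'.1, ?_⟩
    show (M : ℤ) * t ≤ N
    have h1 : (M : ℤ) * t ≤ M * T := mul_le_mul_of_nonneg_left ht'.2.le hMZ.le
    have h2 : (M : ℤ) * T ≤ N := by exact_mod_cast hMTN
    linarith
  obtain ⟨U, h1, h2⟩ := hx V (by
    intro f hf
    obtain ⟨e1, e2, e3⟩ := hVm f hf
    refine ⟨by rw [e1]; norm_num, by rw [e1]; norm_num, by rw [abs_of_nonneg e2]; exact e3,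
      by rw [e1]; exact isCoprime_one_left, ?_⟩
    intro t ht1 ht2
    rw [e1]
    have e2' : (0 : ℝ) ≤ f.2 := by exact_mod_cast e2
    have hN0 : (0 : ℝ) ≤ N := Nat.cast_nonneg _
    push_cast
    linarith) (by
    intro p hpz hp
    refine ⟨1, fun f hf hd => ?_⟩
    obtain ⟨t, ht, rfl⟩ := mem_image.1 hf
    have h4 : (p : ℤ) ∣ (M : ℤ) * t := by
      refine Dvd.dvd.mul_right ?_ t
      exact Int.natCast_dvd_natCast.2 (Nat.dvd_factorial hp.pos hpz)
    have h5 : (p : ℤ) ∣ 1 := by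
      have := dvd_sub hd h4
      simpa using this
    exact hp.one_lt.ne' (by exact_mod_cast Int.eq_one_of_dvd_one (by positivity) h5)) (by
    rw [hVc]; exact hT)
  have h4 := sum_rare V U (fun j => (h1 j).1) (5 / 18 - e) e (by linarith) h2
  have hmR : (0 : ℝ) < m := by exact_mod_cast hm
  obtain ⟨j, hj⟩ : ∃ j, (5 / 18 - ε) * (T : ℝ) ≤ ((U j).card : ℝ) := by
    by_contra hno
    push Not at hno
    have hne : (univ : Finset (Fin m)).Nonempty := ⟨⟨0, hm⟩, mem_univ _⟩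
    have h5 : ∑ j, ((U j).card : ℝ) < ∑ _j : Fin m, (5 / 18 - ε) * (T : ℝ) :=
      sum_lt_sum_of_nonempty hne fun j _ => hno j
    rw [sum_const, card_univ, Fintype.card_fin, nsmul_eq_mul] at h5
    rw [hVc] at h4
    have h6 : (5 / 18 - ε) * (T : ℝ) ≤ (5 / 18 - e) * ((1 - e) * T) := by
      have : (0 : ℝ) ≤ T := Nat.cast_nonneg _
      have h7 : (5 : ℝ) / 18 - ε ≤ (5 / 18 - e) * (1 - e) := by nlinarith
      calc (5 / 18 - ε) * (T : ℝ) ≤ ((5 / 18 - e) * (1 - e)) * T :=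
            mul_le_mul_of_nonneg_right h7 this
        _ = _ := by ring
    have h8 := mul_le_mul_of_nonneg_left h6 hmR.le
    have h9 : (5 / 18 - e) * m * ((1 - e) * T) = m * ((5 / 18 - e) * ((1 - e) * T)) := by
      ring
    linarith
  have hUj : ∀ f ∈ U j, f.1 = 1 ∧ 0 ≤ f.2 ∧ f.2 ≤ N := fun f hf => hVm f ((h1 j).1 hf)
  set A : Finset ℤ := (Ico 0 (T : ℤ)).filter (fun t => ((1 : ℤ), (M : ℤ) * t) ∈ U j) with hA
  have hAc : A.card = (U j).card := by
    have e1 : A.image (fun t : ℤ => ((1 : ℤ), (M : ℤ) * t)) = U j := by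
      ext f
      rw [mem_image]
      constructor
      · rintro ⟨t, ht, rfl⟩
        exact (mem_filter.1 ht).2
      · intro hf
        obtain ⟨t, ht, hft⟩ := mem_image.1 ((h1 j).1 hf)
        refine ⟨t, mem_filter.2 ⟨ht, ?_⟩, hft⟩
        have : ((1 : ℤ), (M : ℤ) * t) = f := hft
        rw [this]; exact hf
    rw [← e1, card_image_of_injective _ hinj]
  refine ⟨A, filter_subset _ _, by rw [hAc]; exact hj, ?_⟩
  have h5 : ((Fintype.piFinset (fun _ : Fin (k + 1) => A)).filter (fun y => Function.Injective y ∧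
        ¬ GoodAt k (C + 1) x (fun j => M * (y j.succ - y 0)))).card ≤
      (exc (k := k) (U j) (AllP C N)).card := by
    apply card_le_card_of_injOn (fun y i => ((1 : ℤ), (M : ℤ) * y i))
    · intro y hy
      rw [mem_coe, mem_filter, Fintype.mem_piFinset] at hy
      obtain ⟨hy1, hy2, hy3⟩ := hy
      rw [mem_coe, mem_exc]
      refine ⟨fun i => (mem_filter.1 (hy1 i)).2, fun a b hab => hy2 (hinj hab), fun hG => hy3 ?_⟩
      have hy0 := hUj _ (mem_filter.1 (hy1 0)).2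
      have e0 : 0 ≤ (M : ℤ) * y 0 := hy0.2.1
      have e1 : (M : ℤ) * y 0 ≤ N := hy0.2.2
      have := goodAt_of_allP (k := k) (C := C) (x := x) (N := N)
        (y := fun i => (M : ℤ) * y i) e0 (by omega) hgr hG
      convert this using 2
      ring
    · intro a _ b _ hab
      funext i
      exact hinj (congrFun hab i)
  calc (((Fintype.piFinset (fun _ : Fin (k + 1) => A)).filter (fun y => Function.Injective y ∧
        ¬ GoodAt k (C + 1) x (fun j => M * (y j.succ - y 0)))).card : ℝ) ≤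
      ((exc (k := k) (U j) (AllP C N)).card : ℝ) := by exact_mod_cast h5
    _ ≤ e * ((U j).card : ℝ) ^ (k + 1) := (h1 j).2
    _ ≤ ε * (T : ℝ) ^ (k + 1) := by
        have h6 : ((U j).card : ℝ) ≤ T := by
          rw [← hVc]; exact_mod_cast card_le_card (h1 j).1
        exact mul_le_mul (by linarith) (pow_le_pow_left₀ (Nat.cast_nonneg _) h6 _)
          (by positivity) hε.le

end Pool.Agent.N646.SF
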