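import Pool.Agent.N646.BX.Stm

/-!
Project SF (helper646): statements. Every vector of a sublattice is a sum of `p` good vectors as soon as
`(k + 1) (1 - p ρ) < 1`, where `ρ` is the density of the almost cliques.
-/

set_option autoImplicit false

namespace Pool.Agent.N646.SF

open Finset
open Pool.Agent.N646.BX

/-- the number of `p`-tuples of elements of `X` with sum `s` -/
def sums (p : ℕ) (X : Finset ℤ) (s : ℤ) : ℕ :=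
  ((Fintype.piFinset (fun _ : Fin p => X)).filter (fun x => ∑ i, x i = s)).card

/-- **SUMP** the `p`-fold sums of an equidistributed set of density `β` have local density
`min 1 (p β)` in some long interval. -/
def S_SUMP : Prop := ∀ (p : ℕ) (β ε : ℝ), 1 ≤ p → 0 < β → β ≤ 1 → 0 < ε →
  ∃ m₀ : ℕ, 1 ≤ m₀ ∧ ∃ ω c τ : ℝ, 0 < ω ∧ 0 < c ∧ 0 < τ ∧ ∃ n₁ : ℕ, ∀ L : ℕ, n₁ ≤ L →
    ∀ m w : ℕ, 1 ≤ m → m₀ ∣ m → 1 ≤ w → (w : ℝ) ≤ ω * L → ∀ X : Finset ℤ,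
    X ⊆ Ico 0 (L : ℤ) → Equi m w β X L → ∃ (a : ℤ) (T : ℕ), τ * L ≤ T ∧ T ≤ L ∧
      (min 1 (p * β) - ε) * T ≤
        (((Ico a (a + T)).filter (fun s => c * (L : ℝ) ^ (p - 1) ≤ (sums p X s : ℝ))).card : ℝ)

/-- **EQ** a set which is dense in all cells is equidistributed. -/
def S_EQ : Prop := ∀ β ε ω : ℝ, β ≤ 1 → 0 < ε → 0 < ω → ∃ r : ℕ, 1 ≤ r ∧
  ∀ m l : ℕ, 1 ≤ m → 1 ≤ l → ∃ w : ℕ, 1 ≤ w ∧ (w : ℝ) ≤ ω * (m * r * l : ℕ) ∧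
    ∀ X : Finset ℤ, (∀ α < m, ∀ d < r, β * l ≤
      (((range l).filter (fun t : ℕ => ((α + m * (d * l + t) : ℕ) : ℤ) ∈ X)).card : ℝ)) →
      Equi m w (β - ε) X (m * r * l)

/-- the tuples of `p` vectors with sum `v` which are vectors of differences of good tuples of `X` -/
def Sol {k : ℕ} (p : ℕ) (X : Finset ℤ) (G : (Fin (k + 1) → ℤ) → Prop) (v : Fin k → ℤ)
    (h : Fin p → Fin k → ℤ) : Prop :=
  (∀ j, ∑ i, h i j = v j) ∧ ∀ i, ∃ y : Fin (k + 1) → ℤ, (∀ j, y j ∈ X) ∧ Function.Injective y ∧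
    G y ∧ ∀ j : Fin k, h i j = y j.succ - y 0

open Classical in
/-- **CNT** the count of the solutions. -/
def S_CNT : Prop := ∀ (k p : ℕ) (θ c τ : ℝ), 2 ≤ p → 0 ≤ θ → (k + 1) * θ < 1 → 0 < c → 0 < τ →
  ∃ ε η c' : ℝ, 0 < ε ∧ 0 < η ∧ 0 < c' ∧ ∃ n₁ : ℕ, ∀ L : ℕ, n₁ ≤ L → ∀ X : Finset ℤ,
    X ⊆ Ico 0 (L : ℤ) → ∀ (a : ℤ) (T : ℕ), τ * L ≤ T → T ≤ L →
    (1 - θ) * T ≤
      (((Ico a (a + T)).filter (fun s => c * (L : ℝ) ^ (p - 1) ≤ (sums p X s : ℝ))).card : ℝ) →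
    ∀ G : (Fin (k + 1) → ℤ) → Prop,
    (((Fintype.piFinset (fun _ : Fin (k + 1) => X)).filter
      (fun y => Function.Injective y ∧ ¬ G y)).card : ℝ) ≤ ε * (L : ℝ) ^ (k + 1) →
    ∀ v : Fin k → ℤ, (∀ j, |(v j : ℝ)| ≤ η * L) →
      c' * (L : ℝ) ^ ((p - 1) * k) ≤
        (((Fintype.piFinset (fun _ : Fin p => Fintype.piFinset (fun _ : Fin k =>
          Ioo (-(L : ℤ)) L))).filter (Sol p X G v)).card : ℝ)

open Classical in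
/-- **SF** the combinatorial theorem. -/
def S_SF : Prop := ∀ (k p : ℕ) (ρ : ℝ), 2 ≤ p → 0 < ρ → ρ ≤ 1 → (k + 1) * (1 - min 1 (p * ρ)) < 1 →
  ∃ ε : ℝ, 0 < ε ∧ ∃ Q B : ℕ, 1 ≤ Q ∧ 1 ≤ B ∧ ∃ c : ℝ, 0 < c ∧ ∀ T : ℕ, B ≤ T →
    ∀ A : Finset ℤ, A ⊆ Ico 0 (T : ℤ) → (ρ - ε) * T ≤ A.card → ∀ g : (Fin k → ℤ) → Prop,
    (((Fintype.piFinset (fun _ : Fin (k + 1) => A)).filter
      (fun y => Function.Injective y ∧ ¬ g (fun j => y j.succ - y 0))).card : ℝ) ≤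
        ε * (T : ℝ) ^ (k + 1) →
    ∀ v : Fin k → ℤ, (∀ j, (Q : ℤ) ∣ v j) → (∀ j, B * |v j| ≤ T) →
      c * (T : ℝ) ^ ((p - 1) * k) ≤
        (((Fintype.piFinset (fun _ : Fin p => Fintype.piFinset (fun _ : Fin k =>
          Ioo (-(T : ℤ)) T))).filter (fun h => (∀ i, g (h i)) ∧ ∀ j, ∑ i, h i j = v j)).card : ℝ)

end Pool.Agent.N646.SF
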