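import Pool.Agent.N646.SF.Asm2
import Pool.Agent.N646.SF.Pri
import Pool.Agent.N646.BX.All
import Pool.Agent.N935.SF_SUMG
import Pool.Agent.N99.SF_CNTG
import Pool.Agent.N868.SF_EQ

/-! Project SF: linear equations in good vectors, the assembly. -/

set_option autoImplicit false

namespace Pool.Agent.N646.SF

open Finset Filter Topology
open Pool.Agent.N646.BX

theorem sfgT : S_SFG := sfg (Pool.Agent.N935.SF.main sK2) Pool.Agent.N868.SFEQ.main
  Pool.Agent.N99.SF_CNTG.main Pool.Agent.N134.BXCell.main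

open Classical in
theorem equations (k p : ℕ) (a : Fin p → ℤ) (ha : ∀ i, a i ≠ 0) (hp : 2 ≤ p)
    (hk : ((k : ℤ) + 1) * (18 - 5 * p) < 18) :
    ∃ N B C : ℕ, 1 ≤ N ∧ 1 ≤ B ∧ ∃ c : ℝ, 0 < c ∧ ∀ᶠ x : ℕ in atTop, ∀ T : ℕ, B ≤ T → B * T ≤ x →
      ∀ v : Fin k → ℤ, (∀ j, (N : ℤ) ∣ v j) → (∀ j, B * |v j| ≤ T) →
        c * (T : ℝ) ^ ((p - 1) * k) ≤
          (((Fintype.piFinset (fun _ : Fin p => Fintype.piFinset (fun _ : Fin k =>
            Ioo (-(T : ℤ)) T))).filter
              (fun h => (∀ i, GoodAt k C x (h i)) ∧ ∀ j, ∑ i, a i * h i j = v j)).card : ℝ) := by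
  have hk' : ((k : ℝ) + 1) * (1 - min 1 ((p : ℝ) * (5 / 18))) < 1 := by
    rcases le_total 1 ((p : ℝ) * (5 / 18)) with h | h
    · rw [min_eq_left h]
      norm_num
    · rw [min_eq_right h]
      have : (((((k : ℤ) + 1) * (18 - 5 * p) : ℤ)) : ℝ) < ((18 : ℤ) : ℝ) := by exact_mod_cast hk
      push_cast at this
      nlinarith
  obtain ⟨ε, hε, Q, B₁, hQ, hB₁, c₁, hc₁, h⟩ :=
    sfgT k p (5 / 18) a ha hp (by norm_num) (by norm_num) hk'
  obtain ⟨M, n₀, C, hM, hx⟩ := clx k ε hε
  have hMZ : (0 : ℤ) < M := by exact_mod_cast hM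
  have hMR : (0 : ℝ) < M := by exact_mod_cast hM
  refine ⟨Q * M, 2 * M * (B₁ + n₀ + 1), C, Nat.mul_pos hQ hM,
    Nat.mul_pos (by omega) (by omega), c₁ / (2 * M) ^ ((p - 1) * k), by positivity, ?_⟩
  filter_upwards [hx] with x hx T hT hTx v hv1 hv2
  set B : ℕ := 2 * M * (B₁ + n₀ + 1) with hB
  have hB2 : 2 * M * B₁ ≤ B := by rw [hB]; exact Nat.mul_le_mul_left _ (by omega)
  have hB3 : M * (B₁ + n₀ + 1) ≤ B := by rw [hB]; exact Nat.mul_le_mul_right _ (by omega)
  have hB4 : 2 ≤ B := by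
    rw [hB]
    have : 1 ≤ M * (B₁ + n₀ + 1) := Nat.mul_pos hM (by omega)
    nlinarith
  set S : ℕ := T / M with hS
  have hS1 : M * S ≤ T := Nat.mul_div_le T M
  have hS2 : T < M * (S + 1) := Nat.lt_mul_div_succ T hM
  have hS3 : B₁ + n₀ + 1 ≤ S := by
    rw [hS, Nat.le_div_iff_mul_le hM, mul_comm]
    exact hB3.trans hT
  have hS4 : T ≤ 2 * M * S := by nlinarith
  have hS5 : 2 * M * S ≤ x := by
    have h1 : 2 * T ≤ B * T := Nat.mul_le_mul_right _ hB4
    nlinarith
  obtain ⟨A, hA1, hA2, hA3⟩ := hx S (by omega) hS5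
  have hvM : ∀ j, (M : ℤ) * (v j / M) = v j := fun j =>
    Int.mul_ediv_cancel' (dvd_trans ⟨(Q : ℤ), by push_cast; ring⟩ (hv1 j))
  have hmain := h S (by omega) A hA1 hA2 (fun h => GoodAt k C x (fun j => M * h j)) hA3
    (fun j => v j / M) (by
      intro j
      obtain ⟨y, hy⟩ := hv1 j
      refine ⟨y, ?_⟩
      have h1 := hvM j
      rw [hy] at h1 ⊢
      push_cast at h1 ⊢
      have h2 : (M : ℤ) * ((Q : ℤ) * M * y / M) = M * (Q * y) := by rw [h1]; ring
      exact mul_left_cancel₀ hMZ.ne' h2) (by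
      intro j
      have h1 : (B : ℤ) * |v j| ≤ T := hv2 j
      have h2 : |v j| = M * |v j / M| := by
        conv_lhs => rw [← hvM j]
        rw [abs_mul, abs_of_pos hMZ]
      have h3 : ((2 * M * B₁ : ℕ) : ℤ) * |v j| ≤ B * |v j| :=
        mul_le_mul_of_nonneg_right (by exact_mod_cast hB2) (abs_nonneg _)
      have h4 : (T : ℤ) ≤ 2 * M * S := by exact_mod_cast hS4
      push_cast at h3
      rw [h2] at h3
      have h5 : (2 * (M : ℤ) * M) * (B₁ * |v j / M|) ≤ (2 * M * M) * S := by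
        have h6 : (1 : ℤ) ≤ M := hMZ
        have h7 : (2 * (M : ℤ) * M) * (B₁ * |v j / M|) ≤ T := by
          calc (2 * (M : ℤ) * M) * (B₁ * |v j / M|) = 2 * M * B₁ * (M * |v j / M|) := by ring
            _ ≤ B * (M * |v j / M|) := h3
            _ = B * |v j| := by rw [h2]
            _ ≤ T := h1
        have h8 : (2 : ℤ) * M * S ≤ 2 * M * M * S := by
          have h9 : (0 : ℤ) ≤ 2 * M * S := by positivity
          nlinarith
        linarith
      exact le_of_mul_le_mul_left h5 (by positivity))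
  have hTR : (T : ℝ) ≤ 2 * M * S := by exact_mod_cast hS4
  calc c₁ / (2 * M) ^ ((p - 1) * k) * (T : ℝ) ^ ((p - 1) * k)
      ≤ c₁ / (2 * M) ^ ((p - 1) * k) * (2 * M * S) ^ ((p - 1) * k) := by
        apply mul_le_mul_of_nonneg_left _ (by positivity)
        exact pow_le_pow_left₀ (Nat.cast_nonneg _) hTR _
    _ = c₁ * (S : ℝ) ^ ((p - 1) * k) := by
        rw [mul_pow (2 * (M : ℝ)) (S : ℝ)]
        field_simp
    _ ≤ _ := hmain
    _ ≤ _ := by
        rw [Nat.cast_le]
        apply card_le_card_of_injOn (fun h i j => (M : ℤ) * h i j)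
        · intro h hh
          rw [mem_coe, mem_filter, Fintype.mem_piFinset] at hh ⊢
          refine ⟨fun i => ?_, fun i => hh.2.1 i, fun j => ?_⟩
          · rw [Fintype.mem_piFinset]
            intro j
            have h1 := hh.1 i
            rw [Fintype.mem_piFinset] at h1
            have h2 := mem_Ioo.1 (h1 j)
            have h3 : (M : ℤ) * S ≤ T := by exact_mod_cast hS1
            rw [mem_Ioo]
            constructor
            · have : (M : ℤ) * (-(S : ℤ)) < M * h i j := mul_lt_mul_of_pos_left h2.1 hMZ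
              linarith
            · have : (M : ℤ) * h i j < M * S := mul_lt_mul_of_pos_left h2.2 hMZ
              linarith
          · show ∑ i, a i * ((M : ℤ) * h i j) = v j
            have h1 : ∀ i, a i * ((M : ℤ) * h i j) = M * (a i * h i j) := fun i => by ring
            rw [sum_congr rfl (fun i _ => h1 i), ← mul_sum, hh.2.2 j]
            exact hvM j
        · intro h _ h' _ hhh
          funext i j
          have h2 : (M : ℤ) * h i j = M * h' i j := congrFun (congrFun hhh i) j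
          exact mul_left_cancel₀ hMZ.ne' h2

end Pool.Agent.N646.SF
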