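import Pool.Agent.N646.SF.Stm

/-! Project SF: the assembly of the combinatorial theorem. -/

set_option autoImplicit false

namespace Pool.Agent.N646.SF

open Finset
open Pool.Agent.N646.BX

theorem lc_succ (m r I l i : ℕ) (hi : i < I) : Lc m r I l i = m * r * Lc m r I l (i + 1) := by
  unfold Lc
  have h : I - i = (I - (i + 1)) + 1 := by omega
  rw [h, pow_succ]
  ring

theorem lc_zero (m r I l : ℕ) : Lc m r I l 0 = (m * r) ^ I * l := by
  unfold Lc
  simp

theorem le_lc (m r I l i : ℕ) (hm : 1 ≤ m) (hr : 1 ≤ r) : l ≤ Lc m r I l i := by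
  unfold Lc
  exact Nat.le_mul_of_pos_left _ (Nat.pow_pos (Nat.mul_pos hm hr))

theorem pow_mul_lc_le (m r I l i : ℕ) (hr : 1 ≤ r) (hi : i < I) :
    m ^ i * Lc m r I l i ≤ (m * r) ^ I * l := by
  unfold Lc
  have h : I = i + (I - i) := by omega
  calc m ^ i * ((m * r) ^ (I - i) * l) ≤ (m * r) ^ i * ((m * r) ^ (I - i) * l) := by
        apply Nat.mul_le_mul_right
        exact Nat.pow_le_pow_left (Nat.le_mul_of_pos_right _ hr) _
    _ = (m * r) ^ I * l := by
        rw [← mul_assoc, ← pow_add, ← h]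

/-- the combinatorial theorem from its parts -/
theorem sf (hS : S_SUMP) (hE : S_EQ) (hC : S_CNT) (hL : S_CELL) : S_SF := by
  classical
  intro k p ρ hp hρ hρ1 hk
  have hk0 : (0 : ℝ) < (k : ℝ) + 1 := by positivity
  have hp0 : (0 : ℝ) < p := by
    have : 0 < p := by omega
    exact_mod_cast this
  have hu0 : 0 ≤ 1 - min 1 ((p : ℝ) * ρ) := by
    have := min_le_left (1 : ℝ) (p * ρ)
    linarith
  set e₁ : ℝ := (1 - (k + 1) * (1 - min 1 ((p : ℝ) * ρ))) / (2 * (k + 1)) with he₁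
  have he₁0 : 0 < e₁ := by
    rw [he₁]
    apply div_pos (by linarith) (by positivity)
  set θ : ℝ := 1 - min 1 ((p : ℝ) * ρ) + e₁ with hθ
  have hθ0 : 0 ≤ θ := by linarith
  have hθ1 : (k + 1) * θ < 1 := by
    have h1 : (k + 1) * e₁ = (1 - (k + 1) * (1 - min 1 ((p : ℝ) * ρ))) / 2 := by
      rw [he₁]; field_simp
    rw [hθ, mul_add, h1]
    linarith
  set e : ℝ := min (e₁ / (4 * p)) (ρ / 4) with he
  have he0 : 0 < e := lt_min (by positivity) (by positivity)
  have hea : e ≤ e₁ / (4 * p) := min_le_left _ _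
  have heb : e ≤ ρ / 4 := min_le_right _ _
  have hpe : p * (2 * e) ≤ e₁ / 2 := by
    rw [le_div_iff₀ (by positivity)] at hea
    linarith
  have hmin : 1 - θ ≤ min 1 ((p : ℝ) * (ρ - e - e)) - e₁ / 2 := by
    have h1 : min 1 ((p : ℝ) * ρ) - e₁ / 2 ≤ min 1 ((p : ℝ) * (ρ - e - e)) := by
      apply le_min
      · have := min_le_left (1 : ℝ) (p * ρ)
        linarith
      · have := min_le_right (1 : ℝ) (p * ρ)
        nlinarith
    rw [hθ]
    linarith
  obtain ⟨m₀, hm₀, ω, c, τ, hω, hc, hτ, n₁, hS'⟩ :=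
    hS p (ρ - e - e) (e₁ / 2) (by omega) (by linarith) (by linarith) (by linarith)
  obtain ⟨ε₄, η, c', hε₄, hη, hc', n₂, hC'⟩ := hC k p θ c τ hp hθ0 hθ1 hc hτ
  obtain ⟨r, hr, hE'⟩ := hE (ρ - e) e ω (by linarith) he0 hω
  obtain ⟨I, hI, hL'⟩ := hL 1 m₀ r hm₀ hr (e / 2) (by linarith)
  set K : ℕ := (m₀ * r) ^ I with hK
  have hK1 : 1 ≤ K := Nat.pow_pos (Nat.mul_pos hm₀ hr)
  have hKR : (1 : ℝ) ≤ K := by exact_mod_cast hK1
  have hK0 : (0 : ℝ) < K := by linarith
  refine ⟨min (e / 4) (ε₄ / (2 * K) ^ (k + 1)), lt_min (by linarith) (by positivity), m₀ ^ I,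
    ⌈4 * K / e⌉₊ + ⌈2 * K / η⌉₊ + 2 * K * (n₁ + n₂ + 1), Nat.pow_pos hm₀, ?_,
    c' / (2 * K) ^ ((p - 1) * k), by positivity, ?_⟩
  · have : 1 ≤ 2 * K * (n₁ + n₂ + 1) := Nat.mul_pos (by omega) (by omega)
    omega
  intro T hT A hA hAc g hbad v hQ hv
  set ε' : ℝ := min (e / 4) (ε₄ / (2 * K) ^ (k + 1)) with hε'
  have hε'a : ε' ≤ e / 4 := min_le_left _ _
  have hε'b : ε' ≤ ε₄ / (2 * K) ^ (k + 1) := min_le_right _ _
  have hε'0 : 0 < ε' := lt_min (by linarith) (by positivity)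
  set B : ℕ := ⌈4 * K / e⌉₊ + ⌈2 * K / η⌉₊ + 2 * K * (n₁ + n₂ + 1) with hB
  have hB1 : 4 * K / e ≤ B := by
    have h1 := Nat.le_ceil (4 * (K : ℝ) / e)
    have h2 : ((⌈4 * (K : ℝ) / e⌉₊ : ℕ) : ℝ) ≤ B := by
      exact_mod_cast (by rw [hB]; omega : ⌈4 * (K : ℝ) / e⌉₊ ≤ B)
    linarith
  have hB2 : 2 * K / η ≤ B := by
    have h1 := Nat.le_ceil (2 * (K : ℝ) / η)
    have h2 : ((⌈2 * (K : ℝ) / η⌉₊ : ℕ) : ℝ) ≤ B := by
      exact_mod_cast (by rw [hB]; omega : ⌈2 * (K : ℝ) / η⌉₊ ≤ B)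
    linarith
  have hTR : (B : ℝ) ≤ T := by exact_mod_cast hT
  have hT2 : 2 * K * (n₁ + n₂ + 1) ≤ T := by omega
  set l : ℕ := T / K with hl
  have hlT : K * l ≤ T := Nat.mul_div_le T K
  have hlT2 : T < K * (l + 1) := by
    have := Nat.lt_mul_div_succ T (show 0 < K by omega)
    exact this
  have hl1 : n₁ + n₂ + 1 ≤ l := by
    rw [hl, Nat.le_div_iff_mul_le (by omega)]
    nlinarith
  have hTl : T ≤ 2 * K * l := by nlinarith
  have hTlR : (T : ℝ) ≤ 2 * K * l := by exact_mod_cast hTl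
  have hlTR : (K : ℝ) * l ≤ T := by exact_mod_cast hlT
  -- the set in the shortened interval
  set A' : Finset ℤ := A.filter (fun x => x < ((K * l : ℕ) : ℤ)) with hA'
  have hA's : A' ⊆ Ico 0 (((m₀ * r) ^ I * l : ℕ) : ℤ) := by
    intro x hx
    rw [hA', mem_filter] at hx
    have := mem_Ico.1 (hA hx.1)
    rw [mem_Ico]
    exact ⟨this.1, hx.2⟩
  have hA'c : (A.card : ℝ) - K ≤ A'.card := by
    have h1 : A ⊆ A' ∪ Ico ((K * l : ℕ) : ℤ) T := by
      intro x hx
      have h2 := mem_Ico.1 (hA hx)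
      rw [mem_union, hA', mem_filter, mem_Ico]
      by_cases h3 : x < ((K * l : ℕ) : ℤ)
      · exact Or.inl ⟨hx, h3⟩
      · exact Or.inr ⟨by omega, h2.2⟩
    have h2 := (card_le_card h1).trans (card_union_le _ _)
    rw [Int.card_Ico] at h2
    have h3 : ((T : ℤ) - ((K * l : ℕ) : ℤ)).toNat ≤ K := by
      have : T ≤ K * l + K := by nlinarith
      omega
    have h4 : A.card ≤ A'.card + K := by omega
    have h5 : (A.card : ℝ) ≤ A'.card + K := by exact_mod_cast h4
    linarith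
  have hA'd : (ρ - e / 2) * (((m₀ * r) ^ I * l : ℕ) : ℝ) ≤ A'.card := by
    have h1 : (((m₀ * r) ^ I * l : ℕ) : ℝ) = K * l := by rw [hK]; push_cast; ring
    rw [h1]
    have h2 : (ρ - e / 2) * ((K : ℝ) * l) ≤ (ρ - e / 2) * T :=
      mul_le_mul_of_nonneg_left hlTR (by linarith)
    have h3 : (K : ℝ) ≤ e / 4 * T := by
      have h4 : 4 * K / e ≤ T := hB1.trans hTR
      rw [div_le_iff₀ he0] at h4
      linarith
    have h5 : ε' * T ≤ e / 4 * T := mul_le_mul_of_nonneg_right hε'a (Nat.cast_nonneg _)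
    nlinarith
  obtain ⟨i, hi, hcell⟩ := hL' l (by omega) Unit (fun _ => {()}) (fun _ => A') (ρ - e / 2)
    (fun _ => singleton_nonempty _) (fun _ => hA's) (fun _ => by
      rw [card_singleton, sum_singleton, Nat.cast_one, mul_one]
      exact hA'd)
  obtain ⟨_, -, b, hb, q, hq, hcell⟩ := hcell 0
  have hρe : ρ - e / 2 - e / 2 = ρ - e := by ring
  rw [hρe] at hcell
  set L : ℕ := Lc m₀ r I l i with hLdef
  have hLl : l ≤ L := le_lc m₀ r I l i hm₀ hr
  have hLs : L = m₀ * r * Lc m₀ r I l (i + 1) := lc_succ m₀ r I l i hi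
  have hLK : m₀ ^ i * L ≤ K * l := pow_mul_lc_le m₀ r I l i hr hi
  set M : ℕ := m₀ ^ i with hM
  have hM1 : 1 ≤ M := Nat.pow_pos hm₀
  have hMZ : (0 : ℤ) < M := by exact_mod_cast hM1
  set s₀ : ℕ := st m₀ r I l i b q with hs₀
  have hLl' : 1 ≤ Lc m₀ r I l (i + 1) := (show 1 ≤ l by omega).trans (le_lc m₀ r I l (i + 1) hm₀ hr)
  have hTL : (T : ℝ) ≤ 2 * K * L := by
    have : (l : ℝ) ≤ L := by exact_mod_cast hLl
    have h2 : 2 * (K : ℝ) * l ≤ 2 * K * L := mul_le_mul_of_nonneg_left this (by positivity)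
    linarith
  set X : Finset ℤ := (Ico 0 (L : ℤ)).filter (fun x => (s₀ : ℤ) + M * x ∈ A') with hX
  have hXs : X ⊆ Ico 0 (L : ℤ) := filter_subset _ _
  obtain ⟨w, hw1, hw2, hEq⟩ := hE' m₀ (Lc m₀ r I l (i + 1)) hm₀ hLl'
  have hEqX : Equi m₀ w (ρ - e - e) X L := by
    rw [hLs]
    apply hEq X
    intro α hα d hd
    refine (hcell α hα d hd).trans ?_
    have : ((range (Lc m₀ r I l (i + 1))).filter (fun t : ℕ =>
        ((s₀ + M * (α + m₀ * (d * Lc m₀ r I l (i + 1) + t)) : ℕ) : ℤ) ∈ A')) ⊆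
        ((range (Lc m₀ r I l (i + 1))).filter (fun t : ℕ =>
          ((α + m₀ * (d * Lc m₀ r I l (i + 1) + t) : ℕ) : ℤ) ∈ X)) := by
      intro t ht
      rw [mem_filter, mem_range] at ht ⊢
      refine ⟨ht.1, ?_⟩
      rw [hX, mem_filter, mem_Ico]
      refine ⟨⟨by positivity, ?_⟩, ?_⟩
      · have h1 : d * Lc m₀ r I l (i + 1) + t + 1 ≤ r * Lc m₀ r I l (i + 1) := by
          have : d + 1 ≤ r := hd
          have h2 : (d + 1) * Lc m₀ r I l (i + 1) ≤ r * Lc m₀ r I l (i + 1) :=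
            Nat.mul_le_mul_right _ this
          have h3 : (d + 1) * Lc m₀ r I l (i + 1) = d * Lc m₀ r I l (i + 1) +
            Lc m₀ r I l (i + 1) := by ring
          omega
        have h2 : m₀ * (d * Lc m₀ r I l (i + 1) + t + 1) ≤ m₀ * (r * Lc m₀ r I l (i + 1)) :=
          Nat.mul_le_mul_left _ h1
        have h3 : α + m₀ * (d * Lc m₀ r I l (i + 1) + t) < L := by
          rw [hLs, mul_assoc]
          have h4 : m₀ * (d * Lc m₀ r I l (i + 1) + t + 1) =
            m₀ * (d * Lc m₀ r I l (i + 1) + t) + m₀ := by ring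
          omega
        exact_mod_cast h3
      · have h1 := ht.2
        push_cast at h1 ⊢
        exact h1
    exact_mod_cast card_le_card this
  have hw2' : (w : ℝ) ≤ ω * L := by rw [hLs]; exact hw2
  obtain ⟨a, T₁, hT₁a, hT₁b, hcount⟩ := hS' L (by omega) m₀ w hm₀ (dvd_refl _) hw1 hw2' X hXs hEqX
  -- the vector
  have hMI : (M : ℤ) ∣ ((m₀ ^ I : ℕ) : ℤ) := by
    rw [hM]
    exact_mod_cast pow_dvd_pow m₀ hi.le
  have hvM : ∀ j, (M : ℤ) * (v j / M) = v j := fun j => Int.mul_ediv_cancel' (hMI.trans (hQ j))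
  set v' : Fin k → ℤ := fun j => v j / M with hv'
  have hv'b : ∀ j, |(v' j : ℝ)| ≤ η * L := by
    intro j
    have h1 : |v' j| ≤ |v j| := by
      rw [← hvM j, abs_mul, abs_of_pos hMZ]
      have : (1 : ℤ) ≤ M := hMZ
      nlinarith [abs_nonneg (v' j)]
    have h2 : (B : ℝ) * |(v j : ℝ)| ≤ T := by
      have := hv j
      have h3 : ((B * |v j| : ℤ) : ℝ) ≤ ((T : ℤ) : ℝ) := by exact_mod_cast this
      push_cast at h3
      exact h3
    have h3 : |(v' j : ℝ)| ≤ |(v j : ℝ)| := by exact_mod_cast h1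
    have h4 : 2 * K / η * |(v j : ℝ)| ≤ 2 * K * L := by
      calc 2 * K / η * |(v j : ℝ)| ≤ B * |(v j : ℝ)| :=
            mul_le_mul_of_nonneg_right hB2 (abs_nonneg _)
        _ ≤ _ := h2.trans hTL
    have h5 : |(v j : ℝ)| ≤ η * L := by
      have h6 : 2 * K / η * |(v j : ℝ)| = 2 * K * (|(v j : ℝ)| / η) := by ring
      rw [h6] at h4
      have h7 : |(v j : ℝ)| / η ≤ L := le_of_mul_le_mul_left h4 (by positivity)
      rw [div_le_iff₀ hη] at h7
      linarith
    linarith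
  have hbad' : (((Fintype.piFinset (fun _ : Fin (k + 1) => X)).filter
      (fun y => Function.Injective y ∧ ¬ g (fun j => M * (y j.succ - y 0)))).card : ℝ) ≤
      ε₄ * (L : ℝ) ^ (k + 1) := by
    have h1 : ((Fintype.piFinset (fun _ : Fin (k + 1) => X)).filter
        (fun y => Function.Injective y ∧ ¬ g (fun j => M * (y j.succ - y 0)))).card ≤
        ((Fintype.piFinset (fun _ : Fin (k + 1) => A)).filter
        (fun y => Function.Injective y ∧ ¬ g (fun j => y j.succ - y 0))).card := by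
      apply card_le_card_of_injOn (fun y j => (s₀ : ℤ) + M * y j)
      · intro y hy
        rw [mem_coe, mem_filter, Fintype.mem_piFinset] at hy ⊢
        refine ⟨fun j => ?_, fun j j' hjj => hy.2.1 ?_, ?_⟩
        · have := hy.1 j
          rw [hX, mem_filter] at this
          exact (mem_filter.1 this.2).1
        · have h2 : (s₀ : ℤ) + M * y j = s₀ + M * y j' := hjj
          have h3 : (M : ℤ) * y j = M * y j' := by linarith
          exact mul_left_cancel₀ hMZ.ne' h3
        · intro hg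
          apply hy.2.2
          convert hg using 2
          ring
      · intro y _ y' _ hyy
        funext j
        have h2 : (s₀ : ℤ) + M * y j = s₀ + M * y' j := congrFun hyy j
        have h3 : (M : ℤ) * y j = M * y' j := by linarith
        exact mul_left_cancel₀ hMZ.ne' h3
    calc _ ≤ (((Fintype.piFinset (fun _ : Fin (k + 1) => A)).filter
        (fun y => Function.Injective y ∧ ¬ g (fun j => y j.succ - y 0))).card : ℝ) := by
          exact_mod_cast h1
      _ ≤ ε' * (T : ℝ) ^ (k + 1) := hbad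
      _ ≤ ε₄ / (2 * K) ^ (k + 1) * (2 * K * L) ^ (k + 1) := by
          apply mul_le_mul hε'b (pow_le_pow_left₀ (Nat.cast_nonneg _) hTL _) (by positivity)
            (by positivity)
      _ = ε₄ * (L : ℝ) ^ (k + 1) := by
          rw [mul_pow (2 * (K : ℝ)) (L : ℝ)]
          field_simp
  have hfin := hC' L (by omega) X hXs a T₁ hT₁a hT₁b
    ((mul_le_mul_of_nonneg_right hmin (Nat.cast_nonneg _)).trans hcount)
    (fun y => g (fun j => M * (y j.succ - y 0))) hbad' v' hv'b
  calc c' / (2 * K) ^ ((p - 1) * k) * (T : ℝ) ^ ((p - 1) * k)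
      ≤ c' / (2 * K) ^ ((p - 1) * k) * (2 * K * L) ^ ((p - 1) * k) := by
        apply mul_le_mul_of_nonneg_left _ (by positivity)
        exact pow_le_pow_left₀ (Nat.cast_nonneg _) hTL _
    _ = c' * (L : ℝ) ^ ((p - 1) * k) := by
        rw [mul_pow (2 * (K : ℝ)) (L : ℝ)]
        field_simp
    _ ≤ _ := hfin
    _ ≤ _ := by
        norm_cast
        apply card_le_card_of_injOn (fun h i' j => (M : ℤ) * h i' j)
        · intro h hh
          rw [mem_coe, mem_filter, Fintype.mem_piFinset] at hh ⊢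
          refine ⟨fun i' => ?_, fun i' => ?_, fun j => ?_⟩
          · rw [Fintype.mem_piFinset]
            intro j
            have h1 := hh.1 i'
            rw [Fintype.mem_piFinset] at h1
            have h2 := mem_Ioo.1 (h1 j)
            rw [mem_Ioo]
            have h3 : (M : ℤ) * L ≤ T := by exact_mod_cast hLK.trans hlT
            constructor
            · have : (M : ℤ) * (-(L : ℤ)) < M * h i' j := mul_lt_mul_of_pos_left h2.1 hMZ
              linarith
            · have : (M : ℤ) * h i' j < M * L := mul_lt_mul_of_pos_left h2.2 hMZ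
              linarith
          · obtain ⟨y, hy1, hy2, hy3, hy4⟩ := hh.2.2 i'
            have : (fun j : Fin k => (M : ℤ) * h i' j) = fun j => (M : ℤ) * (y j.succ - y 0) := by
              funext j
              rw [hy4 j]
            show g (fun j : Fin k => (M : ℤ) * h i' j)
            rw [this]
            exact hy3
          · show ∑ i', (M : ℤ) * h i' j = v j
            rw [← mul_sum, hh.2.1 j]
            exact hvM j
        · intro h _ h' _ hhh
          funext i' j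
          have h2 : (M : ℤ) * h i' j = M * h' i' j := congrFun (congrFun hhh i') j
          exact mul_left_cancel₀ hMZ.ne' h2

end Pool.Agent.N646.SF
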