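import Pool.Agent.N646.SF.Stm2

/-! Project SF: dilations and reflections of equidistributed sets. -/

set_option autoImplicit false

namespace Pool.Agent.N646.SF

open Finset
open Pool.Agent.N646.BX

theorem equi_dil {A m₀ w L L' e : ℕ} {β : ℝ} (he : 1 ≤ e) (hA : e ∣ A) (hA1 : 1 ≤ A) (hm₀ : 1 ≤ m₀)
    {X : Finset ℤ} (hX : Equi (A * m₀) w β X L) (hL : e * L' ≤ L) :
    Equi m₀ w β ((Ico 0 (L' : ℤ)).filter (fun u => (e : ℤ) * u ∈ X)) L' := by
  classical
  obtain ⟨f, hf⟩ := hA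
  have hf1 : 1 ≤ f := by
    rcases Nat.eq_zero_or_pos f with h | h
    · subst h; omega
    · exact h
  have heZ : (0 : ℤ) < e := by exact_mod_cast he
  have hm₀Z : (0 : ℤ) < m₀ := by exact_mod_cast hm₀
  intro u a hu huw
  set S : ℕ × ℕ → Finset ℤ := fun q => X.filter (fun x => (e : ℤ) * u + q.1 * w ≤ x ∧
    x < (e : ℤ) * u + q.1 * w + w ∧ x ≡ e * a + e * m₀ * q.2 [ZMOD ((A * m₀ : ℕ) : ℤ)]) with hS
  have hSc : ∀ q ∈ range e ×ˢ range f, β * w ≤ ((A * m₀ : ℕ) : ℝ) * ((S q).card : ℝ) := by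
    intro q hq
    rw [mem_product, mem_range, mem_range] at hq
    apply hX
    · have := mul_nonneg heZ.le hu
      positivity
    · have h1 : (q.1 + 1) * w ≤ e * w := Nat.mul_le_mul_right _ hq.1
      have h2 : ((q.1 + 1) * w : ℤ) ≤ e * w := by exact_mod_cast h1
      have h3 : (e : ℤ) * (u + w) ≤ e * L' := mul_le_mul_of_nonneg_left huw heZ.le
      have h4 : (e : ℤ) * L' ≤ L := by exact_mod_cast hL
      nlinarith
  have hdisj : ∀ q ∈ range e ×ˢ range f, ∀ q' ∈ range e ×ˢ range f, q ≠ q' →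
      Disjoint (S q) (S q') := by
    intro q hq q' hq' hne
    rw [mem_product, mem_range, mem_range] at hq hq'
    rw [disjoint_left]
    intro x hx hx'
    rw [hS, mem_filter] at hx hx'
    apply hne
    obtain ⟨-, h1, h2, h3⟩ := hx
    obtain ⟨-, h1', h2', h3'⟩ := hx'
    have hq1 : q.1 = q'.1 := by
      have hw : (0 : ℤ) < w := by linarith
      rcases lt_trichotomy q.1 q'.1 with h | h | h
      · exfalso
        have h4 : ((q.1 : ℤ) + 1) * w ≤ q'.1 * w :=
          mul_le_mul_of_nonneg_right (by exact_mod_cast h) hw.le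
        nlinarith
      · exact h
      · exfalso
        have h4 : ((q'.1 : ℤ) + 1) * w ≤ q.1 * w :=
          mul_le_mul_of_nonneg_right (by exact_mod_cast h) hw.le
        nlinarith
    have hq2 : q.2 = q'.2 := by
      have h4 := (h3.symm.trans h3').symm
      have h5 : (e : ℤ) * a + e * m₀ * q'.2 ≡ e * a + e * m₀ * q.2 [ZMOD (e * m₀ * f : ℤ)] := by
        have h6 : ((A * m₀ : ℕ) : ℤ) = e * m₀ * f := by rw [hf]; push_cast; ring
        rw [h6] at h4
        exact h4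
      have h6 : (e : ℤ) * m₀ * q'.2 ≡ e * m₀ * q.2 [ZMOD (e * m₀ * f : ℤ)] :=
        Int.ModEq.add_left_cancel' _ h5
      have h7 : (q'.2 : ℤ) ≡ q.2 [ZMOD f] :=
        Int.ModEq.mul_left_cancel' (by positivity) h6
      have h8 : q'.2 ≡ q.2 [MOD f] := by exact_mod_cast (Int.natCast_modEq_iff.1 h7)
      have h9 := Nat.ModEq.eq_of_lt_of_lt h8 hq'.2 hq.2
      exact h9.symm
    exact Prod.ext hq1 hq2
  have hsub : ((range e ×ˢ range f).biUnion S) ⊆
      ((((Ico 0 (L' : ℤ)).filter (fun u => (e : ℤ) * u ∈ X)).filter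
        (fun x => u ≤ x ∧ x < u + w ∧ x ≡ a [ZMOD m₀])).image (fun x => (e : ℤ) * x)) := by
    intro x hx
    rw [mem_biUnion] at hx
    obtain ⟨q, hq, hx⟩ := hx
    rw [mem_product, mem_range, mem_range] at hq
    rw [hS, mem_filter] at hx
    obtain ⟨hxX, h1, h2, h3⟩ := hx
    have h4 : x ≡ e * a + e * m₀ * q.2 [ZMOD (e * m₀ : ℤ)] := by
      apply h3.of_dvd
      rw [hf]
      push_cast
      exact ⟨f, by ring⟩
    have h5 : x ≡ e * a [ZMOD (e * m₀ : ℤ)] := by
      refine h4.trans ?_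
      have : (e : ℤ) * a + e * m₀ * q.2 - e * a = e * m₀ * q.2 := by ring
      exact (Int.modEq_iff_dvd.2 ⟨-q.2, by ring⟩)
    have h6 : (e : ℤ) ∣ x := by
      have h7 : x ≡ e * a [ZMOD (e : ℤ)] := h5.of_dvd ⟨m₀, rfl⟩
      exact (Int.ModEq.dvd_iff h7).2 ⟨a, rfl⟩
    obtain ⟨y, hy⟩ := h6
    rw [mem_image]
    refine ⟨y, ?_, hy.symm⟩
    have hqw : ((q.1 + 1) * w : ℤ) ≤ e * w := by
      have h1 : (q.1 + 1) * w ≤ e * w := Nat.mul_le_mul_right _ hq.1
      exact_mod_cast h1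
    have hy1 : u ≤ y := by
      have : (e : ℤ) * u ≤ e * y := by
        rw [← hy]
        have : (0 : ℤ) ≤ (q.1 : ℤ) * w := by positivity
        linarith
      exact le_of_mul_le_mul_left this heZ
    have hy2 : y < u + w := by
      have : (e : ℤ) * y < e * (u + w) := by
        rw [← hy]
        nlinarith
      exact lt_of_mul_lt_mul_left this heZ.le
    rw [mem_filter, mem_filter, mem_Ico]
    refine ⟨⟨⟨by linarith, by linarith⟩, ?_⟩, hy1, hy2, ?_⟩
    · rw [← hy]; exact hxX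
    · rw [hy] at h5
      exact Int.ModEq.mul_left_cancel' heZ.ne' h5
  have hcard : ∑ q ∈ range e ×ˢ range f, ((S q).card : ℝ) ≤
      ((((Ico 0 (L' : ℤ)).filter (fun u => (e : ℤ) * u ∈ X)).filter
        (fun x => u ≤ x ∧ x < u + w ∧ x ≡ a [ZMOD m₀])).card : ℝ) := by
    have h1 := card_le_card hsub
    rw [card_biUnion hdisj] at h1
    have h2 := h1.trans card_image_le
    exact_mod_cast h2
  have hsum : ((e : ℝ) * f) * (β * w) ≤ ((A * m₀ : ℕ) : ℝ) *
      ∑ q ∈ range e ×ˢ range f, ((S q).card : ℝ) := by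
    rw [mul_sum]
    have h1 := sum_le_sum hSc
    rw [sum_const, card_product, card_range, card_range, nsmul_eq_mul] at h1
    push_cast at h1 ⊢
    exact h1
  have hAR : ((A * m₀ : ℕ) : ℝ) = ((e : ℝ) * f) * m₀ := by rw [hf]; push_cast; ring
  rw [hAR, mul_assoc ((e : ℝ) * f)] at hsum
  have hef : (0 : ℝ) < (e : ℝ) * f := by
    have h1 : (0 : ℝ) < e := by exact_mod_cast he
    have h2 : (0 : ℝ) < f := by exact_mod_cast hf1
    positivity
  have h3 := le_of_mul_le_mul_left hsum hef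
  refine h3.trans ?_
  exact mul_le_mul_of_nonneg_left hcard (Nat.cast_nonneg _)

theorem equi_refl {m w L' : ℕ} {β : ℝ} {X : Finset ℤ} (hX : Equi m w β X L') :
    Equi m w β ((Ico 0 (L' : ℤ)).filter (fun u => (L' : ℤ) - 1 - u ∈ X)) L' := by
  classical
  intro u a hu huw
  refine (hX (L' - u - w) (L' - 1 - a) (by linarith) (by linarith)).trans ?_
  apply mul_le_mul_of_nonneg_left _ (Nat.cast_nonneg _)
  rw [Nat.cast_le]
  apply card_le_card_of_injOn (fun x => (L' : ℤ) - 1 - x)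
  · intro x hx
    rw [mem_coe, mem_filter] at hx
    obtain ⟨h1, h2, h3, h4⟩ := hx
    rw [mem_coe, mem_filter, mem_filter, mem_Ico]
    refine ⟨⟨⟨?_, ?_⟩, ?_⟩, ?_, ?_, ?_⟩
    · show (0 : ℤ) ≤ L' - 1 - x
      omega
    · show (L' : ℤ) - 1 - x < L'
      omega
    · show (L' : ℤ) - 1 - (L' - 1 - x) ∈ X
      have : (L' : ℤ) - 1 - (L' - 1 - x) = x := by ring
      rw [this]; exact h1
    · show u ≤ (L' : ℤ) - 1 - x
      omega
    · show (L' : ℤ) - 1 - x < u + w
      omega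
    · show (L' : ℤ) - 1 - x ≡ a [ZMOD m]
      have h5 := h4.neg.add_left ((L' : ℤ) - 1)
      have e1 : (L' : ℤ) - 1 + -x = L' - 1 - x := by ring
      have e2 : (L' : ℤ) - 1 + -((L' : ℤ) - 1 - a) = a := by ring
      rw [e1, e2] at h5
      exact h5
  · intro x _ y _ hxy
    have : (L' : ℤ) - 1 - x = L' - 1 - y := hxy
    linarith

theorem equi_lin {A m₀ w L L' : ℕ} {β : ℝ} (hA1 : 1 ≤ A) (hm₀ : 1 ≤ m₀)
    {X : Finset ℤ} (hX : Equi (A * m₀) w β X L) (hL : A * L' ≤ L) (b : ℤ) (hb : b ∣ A) :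
    ∃ t : ℤ, Equi m₀ w β ((Ico 0 (L' : ℤ)).filter (fun u => b * u + t ∈ X)) L' := by
  classical
  have hb0 : b ≠ 0 := by
    rintro rfl
    have := zero_dvd_iff.1 hb
    have : A = 0 := by exact_mod_cast this
    omega
  have h1 : b.natAbs ∣ A := by
    have := Int.natAbs_dvd_natAbs.2 hb
    simpa using this
  have h2 : 1 ≤ b.natAbs := Int.natAbs_pos.2 hb0
  have h3 : b.natAbs * L' ≤ L := (Nat.mul_le_mul_right _ (Nat.le_of_dvd hA1 h1)).trans hL
  have h4 := equi_dil (L' := L') h2 h1 hA1 hm₀ hX h3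
  rcases lt_or_gt_of_ne hb0 with hneg | hpos
  · refine ⟨-b * (L' - 1), ?_⟩
    have h5 := equi_refl h4
    convert h5 using 1
    ext u
    rw [mem_filter, mem_filter, mem_filter, mem_Ico, mem_Ico]
    have e1 : ((b.natAbs : ℕ) : ℤ) = -b := by omega
    rw [e1]
    have e2 : -b * ((L' : ℤ) - 1 - u) = b * u + -b * (L' - 1) := by ring
    rw [e2]
    constructor
    · rintro ⟨h6, h7⟩
      exact ⟨h6, by omega, h7⟩
    · rintro ⟨h6, _, h7⟩
      exact ⟨h6, h7⟩
  · refine ⟨0, ?_⟩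
    convert h4 using 1
    ext u
    rw [mem_filter, mem_filter]
    have e1 : ((b.natAbs : ℕ) : ℤ) = b := by omega
    rw [e1, add_zero]

end Pool.Agent.N646.SF
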