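import Pool.Agent.N646.SF.Asm
import Pool.Agent.N646.SF.Dil

/-! Project SF: the assembly of the combinatorial theorem for linear equations. -/

set_option autoImplicit false

namespace Pool.Agent.N646.SF

open Finset
open Pool.Agent.N646.BX

/-- the combinatorial theorem from its parts -/
theorem sfg (hS : S_SUMG) (hE : S_EQ) (hC : S_CNTG) (hL : S_CELL) : S_SFG := by
  classical
  intro k p ρ a₀ ha₀ hp hρ hρ1 hk
  have hk0 : (0 : ℝ) < (k : ℝ) + 1 := by positivity
  have hp0 : (0 : ℝ) < p := by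
    have : 0 < p := by omega
    exact_mod_cast this
  have hu0 : 0 ≤ 1 - min 1 ((p : ℝ) * ρ) := by
    have := min_le_left (1 : ℝ) (p * ρ)
    linarith
  set e₁ : ℝ := (1 - (k + 1) * (1 - min 1 ((p : ℝ) * ρ))) / (2 * (k + 1)) with he₁
  have he₁0 : 0 < e₁ := by
    rw [he₁]
    apply div_pos (by linarith) (by positivity)
  set θ : ℝ := 1 - min 1 ((p : ℝ) * ρ) + e₁ with hθ
  have hθ0 : 0 ≤ θ := by linarith
  have hθ1 : (k + 1) * θ < 1 := by
    have h1 : (k + 1) * e₁ = (1 - (k + 1) * (1 - min 1 ((p : ℝ) * ρ))) / 2 := by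
      rw [he₁]; field_simp
    rw [hθ, mul_add, h1]
    linarith
  set e : ℝ := min (e₁ / (4 * p)) (ρ / 4) with he
  have he0 : 0 < e := lt_min (by positivity) (by positivity)
  have hea : e ≤ e₁ / (4 * p) := min_le_left _ _
  have heb : e ≤ ρ / 4 := min_le_right _ _
  have hpe : p * (2 * e) ≤ e₁ / 2 := by
    rw [le_div_iff₀ (by positivity)] at hea
    linarith
  have hmin : 1 - θ ≤ min 1 ((p : ℝ) * (ρ - e - e)) - e₁ / 2 := by
    have h1 : min 1 ((p : ℝ) * ρ) - e₁ / 2 ≤ min 1 ((p : ℝ) * (ρ - e - e)) := by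
      apply le_min
      · have := min_le_left (1 : ℝ) (p * ρ)
        linarith
      · have := min_le_right (1 : ℝ) (p * ρ)
        nlinarith
    rw [hθ]
    linarith
  -- the coefficients
  set D : ℕ := ∏ i, (a₀ i).natAbs with hD
  have hD1 : 1 ≤ D := Finset.prod_pos fun i _ => Int.natAbs_pos.2 (ha₀ i)
  have hDR : (1 : ℝ) ≤ D := by exact_mod_cast hD1
  have hDZ : (0 : ℤ) < D := by exact_mod_cast hD1
  have hdvd : ∀ i, a₀ i ∣ (D : ℤ) := by
    intro i
    rw [← Int.natAbs_dvd]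
    exact_mod_cast Finset.dvd_prod_of_mem _ (mem_univ i)
  choose bb hbb using hdvd
  have hbd : ∀ i, bb i ∣ (D : ℤ) := fun i => ⟨a₀ i, by rw [hbb i]; ring⟩
  have hb0 : ∀ i, bb i ≠ 0 := by
    intro i h
    have := hbb i
    rw [h, mul_zero] at this
    omega
  have hbD : ∀ i, |bb i| ≤ D := fun i => Int.le_of_dvd hDZ ((abs_dvd _ _).2 (hbd i))
  obtain ⟨m₀, hm₀, ω, c, τ, hω, hc, hτ, n₁, hS'⟩ :=
    hS p (ρ - e - e) (e₁ / 2) (by omega) (by linarith) (by linarith) (by linarith)
  obtain ⟨ε₄, η, c', hε₄, hη, hc', n₂, hC'⟩ := hC k p θ c τ hp hθ0 hθ1 hc hτ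
  obtain ⟨r, hr, hE'⟩ := hE (ρ - e) e (ω / (2 * D)) (by linarith) he0 (by positivity)
  have hDm : 1 ≤ D * m₀ := Nat.mul_pos hD1 hm₀
  obtain ⟨I, hI, hL'⟩ := hL 1 (D * m₀) r hDm hr (e / 2) (by linarith)
  set K : ℕ := (D * m₀ * r) ^ I with hK
  have hK1 : 1 ≤ K := Nat.pow_pos (Nat.mul_pos hDm hr)
  have hKR : (1 : ℝ) ≤ K := by exact_mod_cast hK1
  have hK0 : (0 : ℝ) < K := by linarith
  set Z : ℝ := 4 * K * D with hZ
  have hZ0 : 0 < Z := by positivity
  refine ⟨min (e / 4) (ε₄ / Z ^ (k + 1)), lt_min (by linarith) (by positivity), (D * m₀) ^ I * D,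
    ⌈4 * K / e⌉₊ + ⌈Z / η⌉₊ + 2 * K * (D * (n₁ + n₂ + 1)), Nat.mul_pos (Nat.pow_pos hDm) hD1, ?_,
    c' / Z ^ ((p - 1) * k), by positivity, ?_⟩
  · have : 1 ≤ 2 * K * (D * (n₁ + n₂ + 1)) :=
      Nat.mul_pos (by omega) (Nat.mul_pos (by omega) (by omega))
    omega
  intro T hT A hA hAc g hbad v hQ hv
  set ε' : ℝ := min (e / 4) (ε₄ / Z ^ (k + 1)) with hε'
  have hε'a : ε' ≤ e / 4 := min_le_left _ _
  have hε'b : ε' ≤ ε₄ / Z ^ (k + 1) := min_le_right _ _
  have hε'0 : 0 < ε' := lt_min (by linarith) (by positivity)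
  set B : ℕ := ⌈4 * K / e⌉₊ + ⌈Z / η⌉₊ + 2 * K * (D * (n₁ + n₂ + 1)) with hB
  have hB1 : 4 * K / e ≤ B := by
    have h1 := Nat.le_ceil (4 * (K : ℝ) / e)
    have h2 : ((⌈4 * (K : ℝ) / e⌉₊ : ℕ) : ℝ) ≤ B := by
      exact_mod_cast (by rw [hB]; omega : ⌈4 * (K : ℝ) / e⌉₊ ≤ B)
    linarith
  have hB2 : Z / η ≤ B := by
    have h1 := Nat.le_ceil (Z / η)
    have h2 : ((⌈Z / η⌉₊ : ℕ) : ℝ) ≤ B := by
      exact_mod_cast (by rw [hB]; omega : ⌈Z / η⌉₊ ≤ B)
    linarith
  have hTR : (B : ℝ) ≤ T := by exact_mod_cast hT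
  have hT2 : 2 * K * (D * (n₁ + n₂ + 1)) ≤ T := by omega
  set l : ℕ := T / K with hl
  have hlT : K * l ≤ T := Nat.mul_div_le T K
  have hlT2 : T < K * (l + 1) := by
    have := Nat.lt_mul_div_succ T (show 0 < K by omega)
    exact this
  have hl1 : D * (n₁ + n₂ + 1) ≤ l := by
    rw [hl, Nat.le_div_iff_mul_le (by omega)]
    nlinarith
  have hl0 : 1 ≤ l := le_trans (Nat.mul_pos hD1 (by omega)) hl1
  have hTl : T ≤ 2 * K * l := by nlinarith
  have hTlR : (T : ℝ) ≤ 2 * K * l := by exact_mod_cast hTl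
  have hlTR : (K : ℝ) * l ≤ T := by exact_mod_cast hlT
  -- the set in the shortened interval
  set A' : Finset ℤ := A.filter (fun x => x < ((K * l : ℕ) : ℤ)) with hA'
  have hA's : A' ⊆ Ico 0 (((D * m₀ * r) ^ I * l : ℕ) : ℤ) := by
    intro x hx
    rw [hA', mem_filter] at hx
    have := mem_Ico.1 (hA hx.1)
    rw [mem_Ico]
    exact ⟨this.1, hx.2⟩
  have hA'c : (A.card : ℝ) - K ≤ A'.card := by
    have h1 : A ⊆ A' ∪ Ico ((K * l : ℕ) : ℤ) T := by
      intro x hx
      have h2 := mem_Ico.1 (hA hx)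
      rw [mem_union, hA', mem_filter, mem_Ico]
      by_cases h3 : x < ((K * l : ℕ) : ℤ)
      · exact Or.inl ⟨hx, h3⟩
      · exact Or.inr ⟨by omega, h2.2⟩
    have h2 := (card_le_card h1).trans (card_union_le _ _)
    rw [Int.card_Ico] at h2
    have h3 : ((T : ℤ) - ((K * l : ℕ) : ℤ)).toNat ≤ K := by
      have : T ≤ K * l + K := by nlinarith
      omega
    have h4 : A.card ≤ A'.card + K := by omega
    have h5 : (A.card : ℝ) ≤ A'.card + K := by exact_mod_cast h4
    linarith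
  have hA'd : (ρ - e / 2) * (((D * m₀ * r) ^ I * l : ℕ) : ℝ) ≤ A'.card := by
    have h1 : (((D * m₀ * r) ^ I * l : ℕ) : ℝ) = K * l := by rw [hK]; push_cast; ring
    rw [h1]
    have h2 : (ρ - e / 2) * ((K : ℝ) * l) ≤ (ρ - e / 2) * T :=
      mul_le_mul_of_nonneg_left hlTR (by linarith)
    have h3 : (K : ℝ) ≤ e / 4 * T := by
      have h4 : 4 * K / e ≤ T := hB1.trans hTR
      rw [div_le_iff₀ he0] at h4
      linarith
    have h5 : ε' * T ≤ e / 4 * T := mul_le_mul_of_nonneg_right hε'a (Nat.cast_nonneg _)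
    nlinarith
  obtain ⟨i, hi, hcell⟩ := hL' l (by omega) Unit (fun _ => {()}) (fun _ => A') (ρ - e / 2)
    (fun _ => singleton_nonempty _) (fun _ => hA's) (fun _ => by
      rw [card_singleton, sum_singleton, Nat.cast_one, mul_one]
      exact hA'd)
  obtain ⟨_, -, b, hb, q, hq, hcell⟩ := hcell 0
  have hρe : ρ - e / 2 - e / 2 = ρ - e := by ring
  rw [hρe] at hcell
  set m : ℕ := D * m₀ with hm
  set L : ℕ := Lc m r I l i with hLdef
  have hLl : l ≤ L := le_lc m r I l i hDm hr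
  have hLs : L = m * r * Lc m r I l (i + 1) := lc_succ m r I l i hi
  have hLK : m ^ i * L ≤ K * l := pow_mul_lc_le m r I l i hr hi
  set M : ℕ := m ^ i with hM
  have hM1 : 1 ≤ M := Nat.pow_pos hDm
  have hMZ : (0 : ℤ) < M := by exact_mod_cast hM1
  set s₀ : ℕ := st m r I l i b q with hs₀
  have hLl' : 1 ≤ Lc m r I l (i + 1) := (show 1 ≤ l by omega).trans (le_lc m r I l (i + 1) hDm hr)
  set X : Finset ℤ := (Ico 0 (L : ℤ)).filter (fun x => (s₀ : ℤ) + M * x ∈ A') with hX
  have hXs : X ⊆ Ico 0 (L : ℤ) := filter_subset _ _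
  obtain ⟨w, hw1, hw2, hEq⟩ := hE' m (Lc m r I l (i + 1)) hDm hLl'
  have hEqX : Equi m w (ρ - e - e) X L := by
    rw [hLs]
    apply hEq X
    intro α hα d hd
    refine (hcell α hα d hd).trans ?_
    have : ((range (Lc m r I l (i + 1))).filter (fun t : ℕ =>
        ((s₀ + M * (α + m * (d * Lc m r I l (i + 1) + t)) : ℕ) : ℤ) ∈ A')) ⊆
        ((range (Lc m r I l (i + 1))).filter (fun t : ℕ =>
          ((α + m * (d * Lc m r I l (i + 1) + t) : ℕ) : ℤ) ∈ X)) := by
      intro t ht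
      rw [mem_filter, mem_range] at ht ⊢
      refine ⟨ht.1, ?_⟩
      rw [hX, mem_filter, mem_Ico]
      refine ⟨⟨by positivity, ?_⟩, ?_⟩
      · have h1 : d * Lc m r I l (i + 1) + t + 1 ≤ r * Lc m r I l (i + 1) := by
          have : d + 1 ≤ r := hd
          have h2 : (d + 1) * Lc m r I l (i + 1) ≤ r * Lc m r I l (i + 1) :=
            Nat.mul_le_mul_right _ this
          have h3 : (d + 1) * Lc m r I l (i + 1) = d * Lc m r I l (i + 1) +
            Lc m r I l (i + 1) := by ring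
          omega
        have h2 : m * (d * Lc m r I l (i + 1) + t + 1) ≤ m * (r * Lc m r I l (i + 1)) :=
          Nat.mul_le_mul_left _ h1
        have h3 : α + m * (d * Lc m r I l (i + 1) + t) < L := by
          rw [hLs, mul_assoc m r]
          have h4 : m * (d * Lc m r I l (i + 1) + t + 1) =
            m * (d * Lc m r I l (i + 1) + t) + m := by ring
          rw [h4] at h2
          have h5 : α + m * (d * Lc m r I l (i + 1) + t) <
              m * (d * Lc m r I l (i + 1) + t) + m := by linarith [hα]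
          exact lt_of_lt_of_le h5 h2
        exact_mod_cast h3
      · have h1 := ht.2
        push_cast at h1 ⊢
        exact h1
    exact_mod_cast card_le_card this
  have hw2' : (w : ℝ) ≤ ω / (2 * D) * L := by rw [hLs]; exact hw2
  -- the dilates
  set L₁ : ℕ := L / D with hL₁
  have hL₁L : D * L₁ ≤ L := Nat.mul_div_le L D
  have hL₁L2 : L < D * (L₁ + 1) := Nat.lt_mul_div_succ L hD1
  have hL₁n : n₁ + n₂ + 1 ≤ L₁ := by
    rw [hL₁, Nat.le_div_iff_mul_le hD1, mul_comm]
    exact hl1.trans hLl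
  have hLL₁ : L ≤ 2 * D * L₁ := by nlinarith
  have hLL₁R : (L : ℝ) ≤ 2 * D * L₁ := by exact_mod_cast hLL₁
  have hTL : (T : ℝ) ≤ Z * L₁ := by
    have h1 : (l : ℝ) ≤ L := by exact_mod_cast hLl
    have h2 : 2 * (K : ℝ) * l ≤ 2 * K * (2 * D * L₁) :=
      mul_le_mul_of_nonneg_left (h1.trans hLL₁R) (by positivity)
    have h3 : 2 * (K : ℝ) * (2 * D * L₁) = Z * L₁ := by rw [hZ]; ring
    linarith
  have hwL₁ : (w : ℝ) ≤ ω * L₁ := by
    refine hw2'.trans ?_
    calc ω / (2 * D) * L ≤ ω / (2 * D) * (2 * D * L₁) :=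
          mul_le_mul_of_nonneg_left hLL₁R (by positivity)
      _ = ω * L₁ := by field_simp
  have hlin : ∀ i', ∃ t : ℤ, Equi m₀ w (ρ - e - e)
      ((Ico 0 (L₁ : ℤ)).filter (fun u => bb i' * u + t ∈ X)) L₁ := fun i' =>
    equi_lin hD1 hm₀ hEqX hL₁L (bb i') (hbd i')
  choose tt htt using hlin
  set XX : Fin p → Finset ℤ := fun i' => (Ico 0 (L₁ : ℤ)).filter (fun u => bb i' * u + tt i' ∈ X)
    with hXX
  have hXXs : ∀ i', XX i' ⊆ Ico 0 (L₁ : ℤ) := fun i' => filter_subset _ _
  obtain ⟨a, T₁, hT₁a, hT₁b, hcount⟩ := hS' L₁ (by omega) m₀ w hm₀ (dvd_refl _) hw1 hwL₁ XX hXXs htt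
  -- the vector
  set MD : ℤ := M * D with hMD
  have hMD0 : 0 < MD := mul_pos hMZ hDZ
  have hMI : MD ∣ (((D * m₀) ^ I * D : ℕ) : ℤ) := by
    rw [hMD, hM, hm]
    push_cast
    apply mul_dvd_mul _ (dvd_refl _)
    exact pow_dvd_pow _ hi.le
  have hvM : ∀ j, MD * (v j / MD) = v j := fun j => Int.mul_ediv_cancel' (hMI.trans (hQ j))
  set v' : Fin k → ℤ := fun j => v j / MD with hv'
  have hv'b : ∀ j, |(v' j : ℝ)| ≤ η * L₁ := by
    intro j
    have h1 : |v' j| ≤ |v j| := by
      rw [← hvM j, abs_mul, abs_of_pos hMD0]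
      have : (1 : ℤ) ≤ MD := hMD0
      nlinarith [abs_nonneg (v' j)]
    have h2 : (B : ℝ) * |(v j : ℝ)| ≤ T := by
      have := hv j
      have h3 : ((B * |v j| : ℤ) : ℝ) ≤ ((T : ℤ) : ℝ) := by exact_mod_cast this
      push_cast at h3
      exact h3
    have h3 : |(v' j : ℝ)| ≤ |(v j : ℝ)| := by exact_mod_cast h1
    have h4 : Z / η * |(v j : ℝ)| ≤ Z * L₁ := by
      calc Z / η * |(v j : ℝ)| ≤ B * |(v j : ℝ)| :=
            mul_le_mul_of_nonneg_right hB2 (abs_nonneg _)
        _ ≤ _ := h2.trans hTL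
    have h5 : |(v j : ℝ)| ≤ η * L₁ := by
      have h6 : Z / η * |(v j : ℝ)| = Z * (|(v j : ℝ)| / η) := by ring
      rw [h6] at h4
      have h7 : |(v j : ℝ)| / η ≤ L₁ := le_of_mul_le_mul_left h4 hZ0
      rw [div_le_iff₀ hη] at h7
      linarith
    linarith
  have hMb : ∀ i', (M : ℤ) * bb i' ≠ 0 := fun i' => mul_ne_zero hMZ.ne' (hb0 i')
  have hbad' : ∀ i', (((Fintype.piFinset (fun _ : Fin (k + 1) => XX i')).filter
      (fun y => Function.Injective y ∧ ¬ g (fun j => M * bb i' * (y j.succ - y 0)))).card : ℝ) ≤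
      ε₄ * (L₁ : ℝ) ^ (k + 1) := by
    intro i'
    have h1 : ((Fintype.piFinset (fun _ : Fin (k + 1) => XX i')).filter
        (fun y => Function.Injective y ∧ ¬ g (fun j => M * bb i' * (y j.succ - y 0)))).card ≤
        ((Fintype.piFinset (fun _ : Fin (k + 1) => A)).filter
        (fun y => Function.Injective y ∧ ¬ g (fun j => y j.succ - y 0))).card := by
      have hcanc : ∀ x y : ℤ, (s₀ : ℤ) + M * (bb i' * x + tt i') = s₀ + M * (bb i' * y + tt i') →
          x = y := by
        intro x y h2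
        have h3 : (M : ℤ) * bb i' * x = M * bb i' * y := by linarith
        exact mul_left_cancel₀ (hMb i') h3
      apply card_le_card_of_injOn (fun y j => (s₀ : ℤ) + M * (bb i' * y j + tt i'))
      · intro y hy
        rw [mem_coe, mem_filter, Fintype.mem_piFinset] at hy ⊢
        refine ⟨fun j => ?_, fun j j' hjj => hy.2.1 (hcanc _ _ hjj), ?_⟩
        · have := hy.1 j
          rw [hXX, mem_filter, hX, mem_filter] at this
          exact (mem_filter.1 this.2.2).1
        · intro hg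
          apply hy.2.2
          convert hg using 2
          ring
      · intro y _ y' _ hyy
        funext j
        exact hcanc _ _ (congrFun hyy j)
    calc _ ≤ (((Fintype.piFinset (fun _ : Fin (k + 1) => A)).filter
        (fun y => Function.Injective y ∧ ¬ g (fun j => y j.succ - y 0))).card : ℝ) := by
          exact_mod_cast h1
      _ ≤ ε' * (T : ℝ) ^ (k + 1) := hbad
      _ ≤ ε₄ / Z ^ (k + 1) * (Z * L₁) ^ (k + 1) := by
          apply mul_le_mul hε'b (pow_le_pow_left₀ (Nat.cast_nonneg _) hTL _) (by positivity)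
            (by positivity)
      _ = ε₄ * (L₁ : ℝ) ^ (k + 1) := by
          rw [mul_pow Z (L₁ : ℝ)]
          field_simp
  have hfin := hC' L₁ (by omega) XX hXXs a T₁ hT₁a hT₁b
    ((mul_le_mul_of_nonneg_right hmin (Nat.cast_nonneg _)).trans hcount)
    (fun i' y => g (fun j => M * bb i' * (y j.succ - y 0))) hbad' v' hv'b
  calc c' / Z ^ ((p - 1) * k) * (T : ℝ) ^ ((p - 1) * k)
      ≤ c' / Z ^ ((p - 1) * k) * (Z * L₁) ^ ((p - 1) * k) := by
        apply mul_le_mul_of_nonneg_left _ (by positivity)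
        exact pow_le_pow_left₀ (Nat.cast_nonneg _) hTL _
    _ = c' * (L₁ : ℝ) ^ ((p - 1) * k) := by
        rw [mul_pow Z (L₁ : ℝ)]
        field_simp
    _ ≤ _ := hfin
    _ ≤ _ := by
        rw [Nat.cast_le]
        apply card_le_card_of_injOn (fun h i' j => (M : ℤ) * bb i' * h i' j)
        · intro h hh
          rw [mem_coe, mem_filter, Fintype.mem_piFinset] at hh ⊢
          refine ⟨fun i' => ?_, fun i' => ?_, fun j => ?_⟩
          · rw [Fintype.mem_piFinset]
            intro j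
            have h1 := hh.1 i'
            rw [Fintype.mem_piFinset] at h1
            have h2 := mem_Ioo.1 (h1 j)
            have h3 : |h i' j| < L₁ := abs_lt.2 h2
            have h4 : |(M : ℤ) * bb i' * h i' j| < T := by
              rw [abs_mul, abs_mul, abs_of_pos hMZ]
              have hb1 : 0 < |bb i'| := abs_pos.2 (hb0 i')
              calc (M : ℤ) * |bb i'| * |h i' j| < M * |bb i'| * L₁ :=
                    mul_lt_mul_of_pos_left h3 (mul_pos hMZ hb1)
                _ ≤ M * D * L₁ := by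
                    apply mul_le_mul_of_nonneg_right _ (Nat.cast_nonneg _)
                    exact mul_le_mul_of_nonneg_left (hbD i') hMZ.le
                _ = ((M * (D * L₁) : ℕ) : ℤ) := by push_cast; ring
                _ ≤ T := by
                    exact_mod_cast ((Nat.mul_le_mul_left M hL₁L).trans hLK).trans hlT
            rw [mem_Ioo]
            exact abs_lt.1 h4
          · obtain ⟨y, hy1, hy2, hy3, hy4⟩ := hh.2.2 i'
            have : (fun j : Fin k => (M : ℤ) * bb i' * h i' j) =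
                fun j => (M : ℤ) * bb i' * (y j.succ - y 0) := by
              funext j
              rw [hy4 j]
            show g (fun j : Fin k => (M : ℤ) * bb i' * h i' j)
            rw [this]
            exact hy3
          · show ∑ i', a₀ i' * ((M : ℤ) * bb i' * h i' j) = v j
            have h1 : ∀ i', a₀ i' * ((M : ℤ) * bb i' * h i' j) = MD * h i' j := by
              intro i'
              rw [hMD, hbb i']
              ring
            rw [sum_congr rfl (fun i' _ => h1 i'), ← mul_sum, hh.2.1 j]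
            exact hvM j
        · intro h _ h' _ hhh
          funext i' j
          have h2 : (M : ℤ) * bb i' * h i' j = M * bb i' * h' i' j := congrFun (congrFun hhh i') j
          exact mul_left_cancel₀ (hMb i') h2

end Pool.Agent.N646.SF
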