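import Pool.Agent.N646.SF.Stm

/-!
Project SF (helper646): statements with different sets. They give all linear equations
`a_1 h^1 + … + a_p h^p = v` (nonzero integer coefficients) in good vectors.
-/

set_option autoImplicit false

namespace Pool.Agent.N646.SF

open Finset
open Pool.Agent.N646.BX

/-- the number of tuples `x` with `x i ∈ X i` for all `i` and sum `s` -/
def sumsV {p : ℕ} (X : Fin p → Finset ℤ) (s : ℤ) : ℕ :=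
  ((Fintype.piFinset X).filter (fun x => ∑ i, x i = s)).card

/-- **SUMG** as `S_SUMP`, for `p` different sets. -/
def S_SUMG : Prop := ∀ (p : ℕ) (β ε : ℝ), 1 ≤ p → 0 < β → β ≤ 1 → 0 < ε →
  ∃ m₀ : ℕ, 1 ≤ m₀ ∧ ∃ ω c τ : ℝ, 0 < ω ∧ 0 < c ∧ 0 < τ ∧ ∃ n₁ : ℕ, ∀ L : ℕ, n₁ ≤ L →
    ∀ m w : ℕ, 1 ≤ m → m₀ ∣ m → 1 ≤ w → (w : ℝ) ≤ ω * L → ∀ X : Fin p → Finset ℤ,
    (∀ i, X i ⊆ Ico 0 (L : ℤ)) → (∀ i, Equi m w β (X i) L) →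
    ∃ (a : ℤ) (T : ℕ), τ * L ≤ T ∧ T ≤ L ∧ (min 1 (p * β) - ε) * T ≤
        (((Ico a (a + T)).filter (fun s => c * (L : ℝ) ^ (p - 1) ≤ (sumsV X s : ℝ))).card : ℝ)

/-- as `Sol`, for `p` different sets and `p` notions of good tuples -/
def SolV {k p : ℕ} (X : Fin p → Finset ℤ) (G : Fin p → (Fin (k + 1) → ℤ) → Prop) (v : Fin k → ℤ)
    (h : Fin p → Fin k → ℤ) : Prop :=
  (∀ j, ∑ i, h i j = v j) ∧ ∀ i, ∃ y : Fin (k + 1) → ℤ, (∀ j, y j ∈ X i) ∧ Function.Injective y ∧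
    G i y ∧ ∀ j : Fin k, h i j = y j.succ - y 0

open Classical in
/-- **CNTG** as `S_CNT`, for `p` different sets. -/
def S_CNTG : Prop := ∀ (k p : ℕ) (θ c τ : ℝ), 2 ≤ p → 0 ≤ θ → (k + 1) * θ < 1 → 0 < c → 0 < τ →
  ∃ ε η c' : ℝ, 0 < ε ∧ 0 < η ∧ 0 < c' ∧ ∃ n₁ : ℕ, ∀ L : ℕ, n₁ ≤ L → ∀ X : Fin p → Finset ℤ,
    (∀ i, X i ⊆ Ico 0 (L : ℤ)) → ∀ (a : ℤ) (T : ℕ), τ * L ≤ T → T ≤ L →
    (1 - θ) * T ≤
      (((Ico a (a + T)).filter (fun s => c * (L : ℝ) ^ (p - 1) ≤ (sumsV X s : ℝ))).card : ℝ) →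
    ∀ G : Fin p → (Fin (k + 1) → ℤ) → Prop,
    (∀ i, (((Fintype.piFinset (fun _ : Fin (k + 1) => X i)).filter
      (fun y => Function.Injective y ∧ ¬ G i y)).card : ℝ) ≤ ε * (L : ℝ) ^ (k + 1)) →
    ∀ v : Fin k → ℤ, (∀ j, |(v j : ℝ)| ≤ η * L) →
      c' * (L : ℝ) ^ ((p - 1) * k) ≤
        (((Fintype.piFinset (fun _ : Fin p => Fintype.piFinset (fun _ : Fin k =>
          Ioo (-(L : ℤ)) L))).filter (SolV X G v)).card : ℝ)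

open Classical in
/-- **SFG** the combinatorial theorem for all linear equations. -/
def S_SFG : Prop := ∀ (k p : ℕ) (ρ : ℝ) (a : Fin p → ℤ), (∀ i, a i ≠ 0) → 2 ≤ p → 0 < ρ → ρ ≤ 1 →
  (k + 1) * (1 - min 1 (p * ρ)) < 1 →
  ∃ ε : ℝ, 0 < ε ∧ ∃ Q B : ℕ, 1 ≤ Q ∧ 1 ≤ B ∧ ∃ c : ℝ, 0 < c ∧ ∀ T : ℕ, B ≤ T →
    ∀ A : Finset ℤ, A ⊆ Ico 0 (T : ℤ) → (ρ - ε) * T ≤ A.card → ∀ g : (Fin k → ℤ) → Prop,
    (((Fintype.piFinset (fun _ : Fin (k + 1) => A)).filter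
      (fun y => Function.Injective y ∧ ¬ g (fun j => y j.succ - y 0))).card : ℝ) ≤
        ε * (T : ℝ) ^ (k + 1) →
    ∀ v : Fin k → ℤ, (∀ j, (Q : ℤ) ∣ v j) → (∀ j, B * |v j| ≤ T) →
      c * (T : ℝ) ^ ((p - 1) * k) ≤
        (((Fintype.piFinset (fun _ : Fin p => Fintype.piFinset (fun _ : Fin k =>
          Ioo (-(T : ℤ)) T))).filter
            (fun h => (∀ i, g (h i)) ∧ ∀ j, ∑ i, a i * h i j = v j)).card : ℝ)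

end Pool.Agent.N646.SF
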